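import Pool.Agent.H13DY.Fin
import Pool.Agent.Q150.DY.Nat
import Pool.Agent.Q190.DY.ND
import Pool.Agent.Q190.DY.PAR
import Pool.Agent.Q149.DY.Loc
import Pool.Agent.Q149.DY.Bad
import Pool.Agent.Q149.DY.Disc
import Pool.Agent.Q166.DY.GOOD
import Pool.Agent.Q166.DY.PER2
import Pool.Agent.Q166.DY.REAL
import Pool.Agent.Q166.DY.ADM
import Pool.Agent.Q166.DY.SQ
import Pool.Agent.Q111.DY.R4

/-!
# Primes with `p`-adic periodic points of quadratic polynomials: the exceptional pairs

`f ∈ ℚ[x]` of degree `2`, conjugate to `x² + c`, `n > 3`, `Φ` the `n`-th dynatomic polynomial of `f`.  Unless `(c, n)` is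
exceptional in the sense of `Exc`, the Dirichlet density of the primes `p` such that `Φ` has a root in `ℚ_p` exists and
is `< 1`.  An exceptional `c` is `≤ -5/4`, its denominator is the square of an even number and is divisible by `36` or
by `100`, for `n ≥ 7` it is divisible by at least three of the primes `3, 5, 7, 11, 13`; and if `p < q` are two primes not
dividing the denominator of `c` then `n ≤ q(q-1)`, so that for every `f` only finitely many `n` remain.
-/

set_option autoImplicit false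

namespace Pool.Agent.Results.MP_34cc05_nt.ExceptionalPairs

open Polynomial Pool.Agent.H13DY

theorem main (f : ℚ[X]) (hf : f.natDegree = 2) (n : ℕ) (hn : 3 < n) (hE : ¬ Exc (par f) n) : Holds f n :=
  Pool.Agent.H13DY.main Pool.Agent.Q150.DY.nat Pool.Agent.Q190.DY.nd
    (Pool.Agent.Q190.DY.pr Pool.Agent.Q190.DY.mul) Pool.Agent.Q149.DY.loc Pool.Agent.Q149.DY.bad
    (Pool.Agent.Q166.DY.good Pool.Agent.Q149.DY.disc) (Pool.Agent.Q166.DY.two1 Pool.Agent.Q149.DY.disc)
    (Pool.Agent.Q166.DY.two2 Pool.Agent.Q149.DY.disc)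
    (Pool.Agent.Q166.DY.real Pool.Agent.Q166.DY.per2 Pool.Agent.Q111.DY.r4) f hf n hn hE

theorem cor {c : ℚ} {n : ℕ} (hn : 3 < n) (hE : Exc c n) :
    c ≤ -5 / 4 ∧ (∃ k : ℕ, c.den = (2 * k) ^ 2) ∧ (36 ∣ c.den ∨ 100 ∣ c.den) ∧
    (7 ≤ n → 3 ≤ (({3, 5, 7, 11, 13} : Finset ℕ).filter (fun p => p ∣ c.den)).card) ∧
    (∀ p q : ℕ, p.Prime → q.Prime → p < q → ¬ p ∣ c.den → ¬ q ∣ c.den → n ≤ q * (q - 1)) :=
  cors Pool.Agent.Q166.DY.a35 Pool.Agent.Q166.DY.a5 Pool.Agent.Q166.DY.apq
    (Pool.Agent.Q166.DY.sq Pool.Agent.Q166.DY.adm2) hn hE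

/-- two primes `p < q` which do not divide a given positive number -/
theorem exists_two (d : ℕ) (hd : 0 < d) :
    ∃ p q : ℕ, p.Prime ∧ q.Prime ∧ p < q ∧ ¬ p ∣ d ∧ ¬ q ∣ d := by
  obtain ⟨p, hp, hp'⟩ := Nat.exists_infinite_primes (d + 1)
  obtain ⟨q, hq, hq'⟩ := Nat.exists_infinite_primes (p + 1)
  refine ⟨p, q, hp', hq', by omega, fun h => ?_, fun h => ?_⟩
  · have := Nat.le_of_dvd hd h; omega
  · have := Nat.le_of_dvd hd h; omega

/-- **The exceptional pairs.**
(1) For every quadratic `f` and every `n > 3` such that `(par f, n)` is not exceptional the density of the primes `p`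
such that the `n`-th dynatomic polynomial of `f` has a root in `ℚ_p` exists and is less than `1`.
(2) For every quadratic `f` this holds for all but finitely many `n`.
(3)-(7) It holds for all `n > 3` if `par f > -5/4`, or if the denominator of `par f` is not the square of an even number, or is
divisible neither by `36` nor by `100`; for all `n ≥ 7` if the denominator is divisible by at most two of the primes
`3, 5, 7, 11, 13`; and for all `n > q (q - 1)` if two primes `p < q` do not divide the denominator. -/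
theorem result :
    (∀ (f : ℚ[X]) (n : ℕ), f.natDegree = 2 → 3 < n → ¬ Exc (par f) n → Holds f n) ∧
    (∀ (f : ℚ[X]), f.natDegree = 2 → ∃ B : ℕ, ∀ n : ℕ, B < n → Holds f n) ∧
    (∀ (f : ℚ[X]) (n : ℕ), f.natDegree = 2 → 3 < n → -5 / 4 < par f → Holds f n) ∧
    (∀ (f : ℚ[X]) (n : ℕ), f.natDegree = 2 → 3 < n → (¬ ∃ k : ℕ, (par f).den = (2 * k) ^ 2) → Holds f n) ∧
    (∀ (f : ℚ[X]) (n : ℕ), f.natDegree = 2 → 3 < n → ¬ 36 ∣ (par f).den → ¬ 100 ∣ (par f).den → Holds f n) ∧
    (∀ (f : ℚ[X]) (n : ℕ), f.natDegree = 2 → 7 ≤ n →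
      (({3, 5, 7, 11, 13} : Finset ℕ).filter (fun p => p ∣ (par f).den)).card ≤ 2 → Holds f n) ∧
    (∀ (f : ℚ[X]) (n p q : ℕ), f.natDegree = 2 → 3 < n → p.Prime → q.Prime → p < q →
      ¬ p ∣ (par f).den → ¬ q ∣ (par f).den → q * (q - 1) < n → Holds f n) := by
  refine ⟨fun f n hf hn hE => main f hf n hn hE, ?_, ?_, ?_, ?_, ?_, ?_⟩
  · intro f hf
    obtain ⟨p, q, hp, hq, hpq, h1, h2⟩ := exists_two (par f).den (par f).pos
    refine ⟨q * (q - 1) + 3, fun n hn => main f hf n (by omega) (fun hE => ?_)⟩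
    have := (cor (by omega) hE).2.2.2.2 p q hp hq hpq h1 h2
    omega
  · intro f n hf hn h
    exact main f hf n hn (fun hE => absurd (cor hn hE).1 (not_le.2 h))
  · intro f n hf hn h
    exact main f hf n hn (fun hE => h (cor hn hE).2.1)
  · intro f n hf hn h h'
    exact main f hf n hn (fun hE => by
      rcases (cor hn hE).2.2.1 with h1 | h1
      · exact h h1
      · exact h' h1)
  · intro f n hf hn h
    refine main f hf n (by omega) (fun hE => ?_)
    have := (cor (by omega) hE).2.2.2.1 hn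
    omega
  · intro f n p q hf hn hp hq hpq h1 h2 h
    refine main f hf n hn (fun hE => ?_)
    have := (cor hn hE).2.2.2.2 p q hp hq hpq h1 h2
    omega

end Pool.Agent.Results.MP_34cc05_nt.ExceptionalPairs
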